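import Pool.Agent.W96.CL.Stm2
set_option autoImplicit false

/-! Project CL, part ELL: `exp (-(π/3) A/B)` is comparable with Cardy's function. -/

open Polynomial Filter Topology MeasureTheory Set

namespace W96CL

namespace EL

/-- the terms of the hypergeometric series -/
noncomputable def tm (k : ℕ) : ℝ :=
  (ascPochhammer ℝ k).eval (1/3) * (ascPochhammer ℝ k).eval (2/3) /
      ((ascPochhammer ℝ k).eval (4/3) * (k.factorial : ℝ))

noncomputable def cc (k : ℕ) : ℝ := (ascPochhammer ℝ k).eval (2/3) / (k.factorial : ℝ)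

lemma asc_pos (k : ℕ) (a : ℝ) (ha : 0 < a) : 0 < (ascPochhammer ℝ k).eval a :=
  ascPochhammer_pos k a ha

lemma asc_shift (k : ℕ) : (ascPochhammer ℝ k).eval (1/3 : ℝ) * (3 * k + 1) =
    (ascPochhammer ℝ k).eval (4/3) := by
  induction k with
  | zero => simp
  | succ k ih =>
    rw [ascPochhammer_succ_eval, ascPochhammer_succ_eval, ← ih]
    push_cast
    ring

lemma cc_nonneg (k : ℕ) : 0 ≤ cc k :=
  div_nonneg (asc_pos k _ (by norm_num)).le (by positivity)

lemma tm_nonneg (k : ℕ) : 0 ≤ tm k :=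
  div_nonneg (mul_nonneg (asc_pos k _ (by norm_num)).le (asc_pos k _ (by norm_num)).le)
    (mul_nonneg (asc_pos k _ (by norm_num)).le (by positivity))

lemma tm_eq (k : ℕ) : tm k = cc k / (3 * k + 1) := by
  unfold tm cc
  have h1 := asc_pos k (1/3) (by norm_num)
  have h2 : (0 : ℝ) < 3 * k + 1 := by positivity
  have h3 : (0 : ℝ) < k.factorial := by positivity
  rw [← asc_shift k]
  field_simp

lemma cc_succ (k : ℕ) : cc k - cc (k + 1) = cc k / (3 * k + 3) := by
  unfold cc
  rw [ascPochhammer_succ_eval, Nat.factorial_succ]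
  have h3 : (0 : ℝ) < k.factorial := by positivity
  push_cast
  field_simp
  ring

lemma tm_le (k : ℕ) : tm k ≤ 3 * (cc k - cc (k + 1)) := by
  rw [tm_eq, cc_succ]
  have h0 := cc_nonneg k
  have h2 : (0 : ℝ) < 3 * k + 1 := by positivity
  have h3 : (0 : ℝ) < 3 * k + 3 := by positivity
  have h4 : (0 : ℝ) ≤ k := by positivity
  rw [← mul_div_assoc, div_le_div_iff₀ h2 h3]
  nlinarith [mul_nonneg h0 h4]

lemma sum_tm (n : ℕ) : ∑ k ∈ Finset.range n, tm k ≤ 3 := by
  have h1 : ∑ k ∈ Finset.range n, tm k ≤ 3 * (cc 0 - cc n) := by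
    induction n with
    | zero => simp
    | succ n ih =>
      rw [Finset.sum_range_succ]
      have := tm_le n
      linarith
  have h2 := cc_nonneg n
  have h3 : cc 0 = 1 := by simp [cc]
  rw [h3] at h1
  linarith

lemma summ (x : ℝ) (h0 : 0 < x) (h1 : x < 1) : Summable (fun k => tm k * x ^ k) := by
  refine summable_of_sum_range_le (c := 3) (fun k => mul_nonneg (tm_nonneg k) (by positivity))
    (fun n => ?_)
  refine (Finset.sum_le_sum fun k _ => ?_).trans (sum_tm n)
  have h2 : x ^ k ≤ 1 := pow_le_one₀ h0.le h1.le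
  have := tm_nonneg k
  nlinarith

lemma ser_le (x : ℝ) (h0 : 0 < x) (h1 : x < 1) : ∑' k, tm k * x ^ k ≤ 3 := by
  refine Real.tsum_le_of_sum_range_le (fun k => mul_nonneg (tm_nonneg k) (by positivity))
    (fun n => ?_)
  refine (Finset.sum_le_sum fun k _ => ?_).trans (sum_tm n)
  have h2 : x ^ k ≤ 1 := pow_le_one₀ h0.le h1.le
  have := tm_nonneg k
  nlinarith

lemma le_ser (x : ℝ) (h0 : 0 < x) (h1 : x < 1) : 1 ≤ ∑' k, tm k * x ^ k := by
  have h2 := (summ x h0 h1).le_tsum 0 (fun k _ => mul_nonneg (tm_nonneg k) (by positivity))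
  have h3 : tm 0 = 1 := by simp [tm]
  rw [h3] at h2
  simpa using h2

/-! ### integrals -/

noncomputable def f3 (a b t : ℝ) : ℝ := 1 / (Real.sqrt (t - a) * Real.sqrt (b - t))

lemma f3_nonneg (a b t : ℝ) : 0 ≤ f3 a b t := by unfold f3; positivity

lemma f3_int (a b : ℝ) (hab : a < b) : IntervalIntegrable (f3 a b) volume a b ∧
    ∫ t in a..b, f3 a b t = Real.pi := by
  have hba : 0 < b - a := by linarith
  set g : ℝ → ℝ := fun t => Real.arcsin ((2 * t - a - b) / (b - a)) with hgdef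
  have hcont : Continuous g := by
    refine Real.continuous_arcsin.comp ?_
    fun_prop
  have hder : ∀ t ∈ Ioo a b, HasDerivAt g (f3 a b t) t := by
    intro t ht
    have h1 : 0 < t - a := by linarith [ht.1]
    have h2 : 0 < b - t := by linarith [ht.2]
    have hu1 : (2 * t - a - b) / (b - a) ≠ -1 := by
      rw [ne_eq, div_eq_iff hba.ne']
      intro h; linarith
    have hu2 : (2 * t - a - b) / (b - a) ≠ 1 := by
      rw [ne_eq, div_eq_iff hba.ne']
      intro h; linarith
    have hd := Real.hasDerivAt_arcsin hu1 hu2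
    have hl : HasDerivAt (fun t : ℝ => (2 * t - a - b) / (b - a)) (2 / (b - a)) t := by
      have h5 := ((((hasDerivAt_id t).const_mul 2).sub_const a).sub_const b).div_const (b - a)
      simpa using h5
    have hc := hd.comp t hl
    refine hc.congr_deriv ?_
    have e1 : 1 - ((2 * t - a - b) / (b - a)) ^ 2 = (2 / (b - a)) ^ 2 * ((t - a) * (b - t)) := by
      field_simp
      ring
    have e2 : 0 < 2 / (b - a) := by positivity
    rw [e1, Real.sqrt_mul (by positivity), Real.sqrt_sq e2.le, Real.sqrt_mul h1.le]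
    unfold f3
    have h3 : 0 < Real.sqrt (t - a) := Real.sqrt_pos.mpr h1
    have h4 : 0 < Real.sqrt (b - t) := Real.sqrt_pos.mpr h2
    field_simp
  have hint : IntervalIntegrable (f3 a b) volume a b := by
    refine intervalIntegral.intervalIntegrable_deriv_of_nonneg (g := g) hcont.continuousOn ?_ ?_
    · intro t ht
      rw [min_eq_left hab.le, max_eq_right hab.le] at ht
      exact hder t ht
    · intro t _
      exact f3_nonneg a b t
  refine ⟨hint, ?_⟩
  rw [intervalIntegral.integral_eq_sub_of_hasDerivAt_of_le hab.le hcont.continuousOn hder hint]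
  have e1 : g b = Real.pi / 2 := by
    have : (2 * b - a - b) / (b - a) = 1 := by rw [div_eq_one_iff_eq hba.ne']; ring
    simp only [hgdef]
    rw [this, Real.arcsin_one]
  have e2 : g a = -(Real.pi / 2) := by
    have : (2 * a - a - b) / (b - a) = -1 := by rw [div_eq_iff hba.ne']; ring
    simp only [hgdef]
    rw [this, Real.arcsin_neg_one]
  rw [e1, e2]; ring

noncomputable def f1 (x t : ℝ) : ℝ := 1 / (Real.sqrt (1 - x - t) * Real.sqrt (1 - t))

lemma f1_nonneg (x t : ℝ) : 0 ≤ f1 x t := by unfold f1; positivity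

lemma f1_int (x : ℝ) (h0 : 0 < x) (h1 : x < 1) : IntervalIntegrable (f1 x) volume 0 (1 - x) ∧
    ∫ t in (0:ℝ)..(1 - x), f1 x t = -Real.log x + 2 * Real.log (Real.sqrt (1 - x) + 1) := by
  have hab : (0:ℝ) < 1 - x := by linarith
  set g : ℝ → ℝ := fun t => -2 * Real.log (Real.sqrt (1 - x - t) + Real.sqrt (1 - t)) with hgdef
  have hcont : ContinuousOn g (Icc 0 (1 - x)) := by
    refine ContinuousOn.mul continuousOn_const (ContinuousOn.log ?_ ?_)
    · fun_prop
    · intro t ht
      have h2 : 0 < Real.sqrt (1 - t) := Real.sqrt_pos.mpr (by linarith [ht.2])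
      have h3 : 0 ≤ Real.sqrt (1 - x - t) := Real.sqrt_nonneg _
      exact (by linarith : 0 < Real.sqrt (1 - x - t) + Real.sqrt (1 - t)).ne'
  have hder : ∀ t ∈ Ioo 0 (1 - x), HasDerivAt g (f1 x t) t := by
    intro t ht
    have h1 : 0 < 1 - x - t := by linarith [ht.2]
    have h2 : 0 < 1 - t := by linarith [ht.2]
    have h3 : 0 < Real.sqrt (1 - x - t) := Real.sqrt_pos.mpr h1
    have h4 : 0 < Real.sqrt (1 - t) := Real.sqrt_pos.mpr h2
    have d1 : HasDerivAt (fun t : ℝ => 1 - x - t) (-1) t := by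
      simpa using (hasDerivAt_id t).const_sub (1 - x)
    have d2 : HasDerivAt (fun t : ℝ => 1 - t) (-1) t := by
      simpa using (hasDerivAt_id t).const_sub 1
    have hd := (((d1.sqrt h1.ne').add (d2.sqrt h2.ne')).log
      (by simp only [Pi.add_apply]; positivity)).const_mul (-2)
    refine hd.congr_deriv ?_
    unfold f1
    simp only [Pi.add_apply]
    field_simp
    ring
  have hint : IntervalIntegrable (f1 x) volume 0 (1 - x) := by
    refine intervalIntegral.intervalIntegrable_deriv_of_nonneg (g := g) ?_ ?_ ?_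
    · rw [uIcc_of_le hab.le]; exact hcont
    · intro t ht
      rw [min_eq_left hab.le, max_eq_right hab.le] at ht
      exact hder t ht
    · intro t _
      exact f1_nonneg x t
  refine ⟨hint, ?_⟩
  rw [intervalIntegral.integral_eq_sub_of_hasDerivAt_of_le hab.le hcont hder hint]
  simp only [hgdef]
  have e1 : (1 - x - (1 - x)) = 0 := by ring
  have e2 : (1 - (1 - x)) = x := by ring
  rw [e1, e2, Real.sqrt_zero, zero_add, Real.log_sqrt h0.le, sub_zero, sub_zero, Real.sqrt_one]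
  ring

noncomputable def FF (x t : ℝ) : ℝ := 1 / Real.sqrt |t * (t - (1 - x)) * (t - 1)|

lemma FF_meas (x : ℝ) : Measurable (FF x) := by
  unfold FF
  refine Measurable.div measurable_const (Measurable.sqrt ?_)
  have : Continuous fun t : ℝ => |t * (t - (1 - x)) * (t - 1)| := by fun_prop
  exact this.measurable

lemma FF_nonneg (x t : ℝ) : 0 ≤ FF x t := by unfold FF; positivity

lemma FF_A (x t : ℝ) (h0 : 0 < x) (ht0 : 0 < t) (ht1 : t < 1 - x) :
    FF x t = 1 / (Real.sqrt t * (Real.sqrt (1 - x - t) * Real.sqrt (1 - t))) := by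
  unfold FF
  have e : t * (t - (1 - x)) * (t - 1) = t * ((1 - x - t) * (1 - t)) := by ring
  have h1 : 0 < 1 - x - t := by linarith
  have h2 : 0 < 1 - t := by linarith
  rw [e, abs_of_pos (by positivity), Real.sqrt_mul ht0.le, Real.sqrt_mul h1.le]

lemma FF_B (x t : ℝ) (h1 : x < 1) (ht0 : 1 - x < t) (ht1 : t < 1) :
    FF x t = 1 / (Real.sqrt t * (Real.sqrt (t - (1 - x)) * Real.sqrt (1 - t))) := by
  unfold FF
  have e : t * (t - (1 - x)) * (t - 1) = -(t * ((t - (1 - x)) * (1 - t))) := by ring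
  have ht : 0 < t := by linarith
  have h1 : 0 < t - (1 - x) := by linarith
  have h2 : 0 < 1 - t := by linarith
  rw [e, abs_neg, abs_of_pos (by positivity), Real.sqrt_mul ht.le, Real.sqrt_mul h1.le]

lemma A_low (x t : ℝ) (h0 : 0 < x) (ht0 : 0 < t) (ht1 : t < 1 - x) : f1 x t ≤ FF x t := by
  rw [FF_A x t h0 ht0 ht1]
  unfold f1
  have h1 : 0 < Real.sqrt (1 - x - t) := Real.sqrt_pos.mpr (by linarith)
  have h2 : 0 < Real.sqrt (1 - t) := Real.sqrt_pos.mpr (by linarith)
  have h3 : 0 < Real.sqrt t := Real.sqrt_pos.mpr ht0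
  have h4 : Real.sqrt t ≤ 1 := by rw [Real.sqrt_le_one]; linarith
  refine one_div_le_one_div_of_le (by positivity) ?_
  have h5 : 0 < Real.sqrt (1 - x - t) * Real.sqrt (1 - t) := by positivity
  nlinarith

lemma A_up (x t : ℝ) (h0 : 0 < x) (ht0 : 0 < t) (ht1 : t < 1 - x) :
    FF x t ≤ f1 x t + f3 0 (1 - x) t := by
  rw [FF_A x t h0 ht0 ht1]
  unfold f1 f3
  rw [sub_zero]
  have h1 : 0 < Real.sqrt (1 - x - t) := Real.sqrt_pos.mpr (by linarith)
  have h2 : 0 < Real.sqrt (1 - t) := Real.sqrt_pos.mpr (by linarith)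
  have h3 : 0 < Real.sqrt t := Real.sqrt_pos.mpr ht0
  have h4 : Real.sqrt t ≤ 1 := by rw [Real.sqrt_le_one]; linarith
  have h5 : Real.sqrt t ^ 2 = t := Real.sq_sqrt ht0.le
  have h6 : Real.sqrt (1 - t) ^ 2 = 1 - t := Real.sq_sqrt (by linarith)
  have h7 : Real.sqrt (1 - t) ≤ 1 := by rw [Real.sqrt_le_one]; linarith
  have e : 1 / (Real.sqrt (1 - x - t) * Real.sqrt (1 - t)) +
      1 / (Real.sqrt t * Real.sqrt (1 - x - t)) =
      (Real.sqrt t + Real.sqrt (1 - t)) *
        (1 / (Real.sqrt t * (Real.sqrt (1 - x - t) * Real.sqrt (1 - t)))) := by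
    field_simp
  rw [e]
  have h8 : 0 < 1 / (Real.sqrt t * (Real.sqrt (1 - x - t) * Real.sqrt (1 - t))) := by positivity
  have h9 : 1 ≤ Real.sqrt t + Real.sqrt (1 - t) := by nlinarith
  nlinarith

lemma FF_end (x : ℝ) : FF x (1 - x) = 0 := by
  unfold FF; simp

lemma FF_end1 (x : ℝ) : FF x 1 = 0 := by
  unfold FF; simp

lemma A_int (x : ℝ) (h0 : 0 < x) (h1 : x < 1) : IntervalIntegrable (FF x) volume 0 (1 - x) := by
  have hab : (0:ℝ) ≤ 1 - x := by linarith
  refine ((f1_int x h0 h1).1.add (f3_int 0 (1 - x) (by linarith)).1).mono_fun'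
    (FF_meas x).aestronglyMeasurable ?_
  rw [uIoc_of_le hab]
  refine (ae_restrict_iff' measurableSet_Ioc).mpr (Eventually.of_forall fun t ht => ?_)
  show ‖FF x t‖ ≤ _
  rw [Real.norm_of_nonneg (FF_nonneg x t)]
  rcases lt_or_eq_of_le ht.2 with h | h
  · exact A_up x t h0 ht.1 h
  · rw [h, FF_end]
    exact add_nonneg (f1_nonneg _ _) (f3_nonneg _ _ _)

lemma A_bounds (x : ℝ) (h0 : 0 < x) (h1 : x < 1) :
    -Real.log x ≤ ellA x ∧ ellA x ≤ -Real.log x + (2 * Real.log 2 + Real.pi) := by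
  have hab : (0:ℝ) ≤ 1 - x := by linarith
  have hA : ellA x = ∫ t in (0:ℝ)..(1 - x), FF x t := rfl
  obtain ⟨i1, e1⟩ := f1_int x h0 h1
  obtain ⟨i3, e3⟩ := f3_int 0 (1 - x) (by linarith)
  have hs0 : 0 ≤ Real.sqrt (1 - x) := Real.sqrt_nonneg _
  have hs1 : Real.sqrt (1 - x) ≤ 1 := by rw [Real.sqrt_le_one]; linarith
  constructor
  · have h2 := intervalIntegral.integral_mono_on_of_le_Ioo hab i1 (A_int x h0 h1)
      (fun t ht => A_low x t h0 ht.1 ht.2)
    rw [e1, ← hA] at h2
    have h3 : 0 ≤ Real.log (Real.sqrt (1 - x) + 1) := Real.log_nonneg (by linarith)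
    linarith
  · have h2 := intervalIntegral.integral_mono_on_of_le_Ioo hab (A_int x h0 h1) (i1.add i3)
      (fun t ht => A_up x t h0 ht.1 ht.2)
    rw [intervalIntegral.integral_add i1 i3, e1, e3, ← hA] at h2
    have h3 : Real.log (Real.sqrt (1 - x) + 1) ≤ Real.log 2 :=
      Real.log_le_log (by linarith) (by linarith)
    linarith

lemma B_low (x t : ℝ) (h1 : x < 1) (ht0 : 1 - x < t) (ht1 : t < 1) :
    f3 (1 - x) 1 t ≤ FF x t := by
  rw [FF_B x t h1 ht0 ht1]
  unfold f3
  have h1 : 0 < Real.sqrt (t - (1 - x)) := Real.sqrt_pos.mpr (by linarith)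
  have h2 : 0 < Real.sqrt (1 - t) := Real.sqrt_pos.mpr (by linarith)
  have h3 : 0 < Real.sqrt t := Real.sqrt_pos.mpr (by linarith)
  have h4 : Real.sqrt t ≤ 1 := by rw [Real.sqrt_le_one]; linarith
  refine one_div_le_one_div_of_le (by positivity) ?_
  have h5 : 0 < Real.sqrt (t - (1 - x)) * Real.sqrt (1 - t) := by positivity
  nlinarith

lemma B_up (x t : ℝ) (h1 : x < 1) (ht0 : 1 - x < t) (ht1 : t < 1) :
    FF x t ≤ 1 / Real.sqrt (1 - x) * f3 (1 - x) 1 t := by
  rw [FF_B x t h1 ht0 ht1]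
  unfold f3
  have h1' : 0 < Real.sqrt (t - (1 - x)) := Real.sqrt_pos.mpr (by linarith)
  have h2 : 0 < Real.sqrt (1 - t) := Real.sqrt_pos.mpr (by linarith)
  have h3 : 0 < Real.sqrt (1 - x) := Real.sqrt_pos.mpr (by linarith)
  have h4 : Real.sqrt (1 - x) ≤ Real.sqrt t := Real.sqrt_le_sqrt ht0.le
  rw [one_div_mul_one_div]
  refine one_div_le_one_div_of_le (by positivity) ?_
  have h5 : 0 < Real.sqrt (t - (1 - x)) * Real.sqrt (1 - t) := by positivity
  nlinarith

lemma B_int (x : ℝ) (h0 : 0 < x) (h1 : x < 1) : IntervalIntegrable (FF x) volume (1 - x) 1 := by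
  have hab : (1 - x : ℝ) ≤ 1 := by linarith
  refine ((f3_int (1 - x) 1 (by linarith)).1.const_mul (1 / Real.sqrt (1 - x))).mono_fun'
    (FF_meas x).aestronglyMeasurable ?_
  rw [uIoc_of_le hab]
  refine (ae_restrict_iff' measurableSet_Ioc).mpr (Eventually.of_forall fun t ht => ?_)
  show ‖FF x t‖ ≤ _
  rw [Real.norm_of_nonneg (FF_nonneg x t)]
  rcases lt_or_eq_of_le ht.2 with h | h
  · exact B_up x t h1 ht.1 h
  · rw [h, FF_end1]
    exact mul_nonneg (by positivity) (f3_nonneg _ _ _)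

lemma B_bounds (x : ℝ) (h0 : 0 < x) (h1 : x < 1) :
    Real.pi ≤ ellB x ∧ ellB x * (1 - x) ≤ Real.pi := by
  have hab : (1 - x : ℝ) ≤ 1 := by linarith
  have hB : ellB x = ∫ t in (1 - x)..(1:ℝ), FF x t := rfl
  obtain ⟨i3, e3⟩ := f3_int (1 - x) 1 (by linarith)
  have hs0 : 0 < Real.sqrt (1 - x) := Real.sqrt_pos.mpr (by linarith)
  have hs1 : Real.sqrt (1 - x) ≤ 1 := by rw [Real.sqrt_le_one]; linarith
  have hs2 : Real.sqrt (1 - x) ^ 2 = 1 - x := Real.sq_sqrt (by linarith)
  constructor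
  · have h2 := intervalIntegral.integral_mono_on_of_le_Ioo hab i3 (B_int x h0 h1)
      (fun t ht => B_low x t h1 ht.1 ht.2)
    rw [e3, ← hB] at h2
    exact h2
  · have h2 := intervalIntegral.integral_mono_on_of_le_Ioo hab (B_int x h0 h1)
      (i3.const_mul (1 / Real.sqrt (1 - x))) (fun t ht => B_up x t h1 ht.1 ht.2)
    rw [intervalIntegral.integral_const_mul, e3, ← hB] at h2
    have h3 : ellB x * (1 - x) ≤ 1 / Real.sqrt (1 - x) * Real.pi * (1 - x) :=
      mul_le_mul_of_nonneg_right h2 (by linarith)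
    have h4 : 1 / Real.sqrt (1 - x) * Real.pi * (1 - x) = Real.sqrt (1 - x) * Real.pi := by
      rw [← hs2, Real.sqrt_sq hs0.le]
      field_simp
    rw [h4] at h3
    nlinarith [Real.pi_pos]

end EL

theorem cl_ell : S_ell := by
  set g : ℝ := 3 * Real.Gamma (2/3) / Real.Gamma (1/3) ^ 2 with hg
  have hgpos : 0 < g := by
    have h1 := Real.Gamma_pos_of_pos (show (0:ℝ) < 2/3 by norm_num)
    have h2 := Real.Gamma_pos_of_pos (show (0:ℝ) < 1/3 by norm_num)
    positivity
  set K : ℝ := 2 * Real.log 2 + Real.pi with hK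
  refine ⟨Real.exp (-(K / 3)) / (3 * g), Real.exp (1 / 3) / g, by positivity, ?_⟩
  intro x h0 h1
  obtain ⟨a1, a2⟩ := EL.A_bounds x h0 h1
  obtain ⟨b1, b2⟩ := EL.B_bounds x h0 h1
  have hB : 0 < ellB x := Real.pi_pos.trans_le b1
  have hlog : 0 < -Real.log x := by
    have := Real.log_neg h0 h1
    linarith
  have hA : 0 < ellA x := hlog.trans_le a1
  have hq1 : Real.pi * (ellA x / ellB x) ≤ -Real.log x + K := by
    have h2 : Real.pi * (ellA x / ellB x) ≤ ellA x := by
      rw [← mul_div_assoc, div_le_iff₀ hB]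
      nlinarith
    linarith
  have hq2 : -Real.log x - 1 ≤ Real.pi * (ellA x / ellB x) := by
    have h2 : ellA x * (1 - x) ≤ Real.pi * (ellA x / ellB x) := by
      rw [← mul_div_assoc, le_div_iff₀ hB]
      nlinarith
    have h3 : -Real.log x * (1 - x) ≤ ellA x * (1 - x) :=
      mul_le_mul_of_nonneg_right a1 (by linarith)
    have h4 : x * (-Real.log x) ≤ 1 := by
      have h5 := Real.add_one_le_exp (-Real.log x)
      rw [Real.exp_neg, Real.exp_log h0] at h5
      have h6 : x * (-Real.log x + 1) ≤ x * x⁻¹ := mul_le_mul_of_nonneg_left h5 h0.le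
      rw [mul_inv_cancel₀ h0.ne'] at h6
      nlinarith
    nlinarith
  have hx3 : x ^ (1/3 : ℝ) = Real.exp (Real.log x * (1/3)) := Real.rpow_def_of_pos h0 _
  have hxp : 0 < x ^ (1/3 : ℝ) := Real.rpow_pos_of_pos h0 _
  have hc : cardyF x = g * x ^ (1/3 : ℝ) * ∑' k : ℕ, EL.tm k * x ^ k := rfl
  have s1 := EL.le_ser x h0 h1
  have s2 := EL.ser_le x h0 h1
  have hgx : 0 < g * x ^ (1/3 : ℝ) := by positivity
  constructor
  · have h5 : cardyF x ≤ g * x ^ (1/3 : ℝ) * 3 := by
      rw [hc]; exact mul_le_mul_of_nonneg_left s2 hgx.le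
    calc Real.exp (-(K / 3)) / (3 * g) * cardyF x
        ≤ Real.exp (-(K / 3)) / (3 * g) * (g * x ^ (1/3 : ℝ) * 3) :=
          mul_le_mul_of_nonneg_left h5 (by positivity)
      _ = Real.exp (-(K / 3)) * x ^ (1/3 : ℝ) := by field_simp
      _ = Real.exp (-(K / 3) + Real.log x * (1/3)) := by rw [hx3, Real.exp_add]
      _ ≤ Real.exp (-(Real.pi / 3 * (ellA x / ellB x))) := by
          apply Real.exp_le_exp.mpr
          linarith
  · have h5 : g * x ^ (1/3 : ℝ) * 1 ≤ cardyF x := by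
      rw [hc]; exact mul_le_mul_of_nonneg_left s1 hgx.le
    calc Real.exp (-(Real.pi / 3 * (ellA x / ellB x)))
        ≤ Real.exp (1 / 3 + Real.log x * (1/3)) := by
          apply Real.exp_le_exp.mpr
          linarith
      _ = Real.exp (1 / 3) * x ^ (1/3 : ℝ) := by rw [hx3, Real.exp_add]
      _ = Real.exp (1 / 3) / g * (g * x ^ (1/3 : ℝ) * 1) := by field_simp
      _ ≤ Real.exp (1 / 3) / g * cardyF x := mul_le_mul_of_nonneg_left h5 (by positivity)

end W96CL
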