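import Pool.Agent.W96.CL.Stm
set_option autoImplicit false

/-! Project CL, part MAIN2: two-sided bounds for all aspect ratios. -/

open Polynomial Filter Topology

namespace W96CL

namespace M2

lemma lower (f : ℕ → ℕ → ℝ) (r : ℕ → ℝ) (b : ℕ)
    (hpos : ∀ a, 0 < f a b) (hsub : ∀ a a', f (a + a') b ≤ f a b * f a' b) (h0 : f 0 b = 1)
    (hr : Tendsto (fun a : ℕ => -(1 / (a : ℝ)) * Real.log (f a b)) atTop (𝓝 (r b))) (a : ℕ) :
    Real.exp (-(r b * a)) ≤ f a b := by
  rcases Nat.eq_zero_or_pos a with rfl | ha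
  · simp [h0]
  have hpow : ∀ k : ℕ, f (k * a) b ≤ f a b ^ k := by
    intro k
    induction k with
    | zero => simp [h0]
    | succ k ih =>
      calc f ((k + 1) * a) b = f (k * a + a) b := by ring_nf
        _ ≤ f (k * a) b * f a b := hsub _ _
        _ ≤ f a b ^ k * f a b := by
            exact mul_le_mul_of_nonneg_right ih (hpos a).le
        _ = f a b ^ (k + 1) := by rw [pow_succ]
  have haR : (0 : ℝ) < a := by exact_mod_cast ha
  have hcomp : Tendsto (fun k : ℕ => k * a) atTop atTop :=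
    tendsto_id.atTop_mul_const' ha
  have hlim := hr.comp hcomp
  have hge : -(1 / (a : ℝ)) * Real.log (f a b) ≤ r b := by
    refine ge_of_tendsto hlim ?_
    filter_upwards [eventually_ge_atTop 1] with k hk
    have hkR : (0 : ℝ) < k := by exact_mod_cast hk
    have hlog : Real.log (f (k * a) b) ≤ k * Real.log (f a b) := by
      have := Real.log_le_log (hpos _) (hpow k)
      rwa [Real.log_pow] at this
    simp only [Function.comp]
    push_cast
    have h1 : -(1 / (a : ℝ)) * Real.log (f a b) =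
        -(1 / ((k : ℝ) * a)) * (k * Real.log (f a b)) := by
      field_simp
    rw [h1]
    have h2 : 0 < 1 / ((k : ℝ) * a) := by positivity
    nlinarith
  have h3 : -(r b * a) ≤ Real.log (f a b) := by
    have h4 : -(1 / (a : ℝ)) * Real.log (f a b) * a ≤ r b * a :=
      mul_le_mul_of_nonneg_right hge haR.le
    have h5 : -(1 / (a : ℝ)) * Real.log (f a b) * a = -Real.log (f a b) := by
      field_simp
    linarith
  calc Real.exp (-(r b * a)) ≤ Real.exp (Real.log (f a b)) := Real.exp_le_exp.mpr h3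
    _ = f a b := Real.exp_log (hpos a)

lemma upper (f : ℕ → ℕ → ℝ) (r : ℕ → ℝ) (b : ℕ)
    (hpos : ∀ a, 0 < f a b) (hle : ∀ a, f a b ≤ 1)
    (hg : ∀ a a', f (a + b) b * f (a' + b) b / 2 ≤ f (a + a' + b) b)
    (hr : Tendsto (fun a : ℕ => -(1 / (a : ℝ)) * Real.log (f a b)) atTop (𝓝 (r b))) (a : ℕ) :
    f (a + b) b ≤ 2 * Real.exp (-(r b * a)) := by
  rcases Nat.eq_zero_or_pos a with rfl | ha
  · simp only [Nat.cast_zero, mul_zero, neg_zero, Real.exp_zero, mul_one]
    linarith [hle (0 + b)]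
  have hgp : ∀ k : ℕ, (f (a + b) b / 2) ^ (k + 1) ≤ f ((k + 1) * a + b) b / 2 := by
    intro k
    induction k with
    | zero => simp
    | succ k ih =>
      have h1 := hg ((k + 1) * a) a
      have e1 : (k + 1) * a + a + b = (k + 1 + 1) * a + b := by ring
      rw [e1] at h1
      have h2 : (f (a + b) b / 2) ^ (k + 1) * (f (a + b) b / 2) ≤
          f ((k + 1) * a + b) b / 2 * (f (a + b) b / 2) :=
        mul_le_mul_of_nonneg_right ih (by have := hpos (a + b); linarith)
      rw [pow_succ]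
      linarith
  have haR : (0 : ℝ) < a := by exact_mod_cast ha
  have hcomp : Tendsto (fun k : ℕ => (k + 1) * a + b) atTop atTop := by
    have h1 : Tendsto (fun k : ℕ => k * a) atTop atTop := tendsto_id.atTop_mul_const' ha
    refine tendsto_atTop_mono (fun k => ?_) h1
    nlinarith
  have hlim := hr.comp hcomp
  have hx : Tendsto (fun k : ℕ => -(((a : ℝ) + b * (1 / ((k : ℝ) + 1))) *
      (-(1 / (((k + 1) * a + b : ℕ) : ℝ)) * Real.log (f ((k + 1) * a + b) b)))
      - Real.log 2 * (1 / ((k : ℝ) + 1))) atTop (𝓝 (-(((a : ℝ) + b * 0) * r b)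
        - Real.log 2 * 0)) := by
    have h0 := tendsto_one_div_add_atTop_nhds_zero_nat (𝕜 := ℝ)
    exact (((tendsto_const_nhds.add (tendsto_const_nhds.mul h0)).mul hlim).neg).sub
      (tendsto_const_nhds.mul h0)
  have hkey : Real.log (f (a + b) b / 2) ≤ -(((a : ℝ) + b * 0) * r b) - Real.log 2 * 0 := by
    refine ge_of_tendsto hx ?_
    filter_upwards [eventually_ge_atTop 1] with k hk
    have hk1 : (0 : ℝ) < (k : ℝ) + 1 := by positivity
    have hm : (0 : ℝ) < ((k : ℝ) + 1) * a + b := by positivity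
    have hlog : ((k : ℝ) + 1) * Real.log (f (a + b) b / 2) ≤
        Real.log (f ((k + 1) * a + b) b) - Real.log 2 := by
      have h3 := Real.log_le_log (pow_pos (by have := hpos (a + b); linarith) _) (hgp k)
      rw [Real.log_pow, Real.log_div (hpos ((k + 1) * a + b)).ne' (by norm_num)] at h3
      push_cast at h3
      exact h3
    push_cast
    have e : -(((a : ℝ) + b * (1 / ((k : ℝ) + 1))) *
        (-(1 / (((k : ℝ) + 1) * a + b)) * Real.log (f ((k + 1) * a + b) b)))
        - Real.log 2 * (1 / ((k : ℝ) + 1)) =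
        (Real.log (f ((k + 1) * a + b) b) - Real.log 2) / ((k : ℝ) + 1) := by
      field_simp
    rw [e, le_div_iff₀ hk1]
    linarith
  have h6 : Real.log (f (a + b) b / 2) ≤ -(r b * a) := by
    have e : -(((a : ℝ) + b * 0) * r b) - Real.log 2 * 0 = -(r b * a) := by ring
    linarith [e]
  have h7 : f (a + b) b / 2 ≤ Real.exp (-(r b * a)) := by
    have h8 : 0 < f (a + b) b / 2 := by have := hpos (a + b); linarith
    calc f (a + b) b / 2 = Real.exp (Real.log (f (a + b) b / 2)) := (Real.exp_log h8).symm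
      _ ≤ _ := Real.exp_le_exp.mpr h6
  linarith

/-- the general limit statement -/
lemma squeeze (f : ℕ → ℕ → ℝ) (r : ℕ → ℝ)
    (hbr : Tendsto (fun b : ℕ => (b : ℝ) * r b) atTop (𝓝 (Real.pi / 3)))
    (hlo : ∀ a b : ℕ, Real.exp (-(r b * a)) ≤ f a b)
    (hup : ∀ a b : ℕ, f a b ≤ 2 * Real.exp (-(r b * ((a : ℝ) - b))))
    (A B : ℕ → ℕ) (α β : ℝ) (hβ : 0 < β) (hB : Tendsto B atTop atTop)
    (hA' : Tendsto (fun n : ℕ => (A n : ℝ) / n) atTop (𝓝 α))
    (hB' : Tendsto (fun n : ℕ => (B n : ℝ) / n) atTop (𝓝 β)) (ε : ℝ) (hε : 0 < ε) :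
    ∀ᶠ n : ℕ in atTop, (1 - ε) * Real.exp (-(Real.pi * α / (3 * β))) ≤ f (A n) (B n) ∧
      f (A n) (B n) ≤
        (1 + ε) * (2 * Real.exp (Real.pi / 3) * Real.exp (-(Real.pi * α / (3 * β)))) := by
  have hbn : Tendsto (fun n => (B n : ℝ) * r (B n)) atTop (𝓝 (Real.pi / 3)) := hbr.comp hB
  have hrat : Tendsto (fun n => ((A n : ℝ) / n) / ((B n : ℝ) / n)) atTop (𝓝 (α / β)) :=
    hA'.div hB' hβ.ne'
  have hra : Tendsto (fun n => r (B n) * (A n : ℝ)) atTop (𝓝 (Real.pi / 3 * (α / β))) := by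
    refine (hbn.mul hrat).congr' ?_
    filter_upwards [eventually_ge_atTop 1, hB.eventually_ge_atTop 1] with n hn hBn
    have h1 : (0 : ℝ) < n := by exact_mod_cast hn
    have h2 : (0 : ℝ) < B n := by exact_mod_cast hBn
    field_simp
  have e1 : Real.pi * α / (3 * β) = Real.pi / 3 * (α / β) := by
    field_simp
  have hL : Tendsto (fun n => Real.exp (-(r (B n) * (A n : ℝ)))) atTop
      (𝓝 (Real.exp (-(Real.pi * α / (3 * β))))) := by
    rw [e1]
    exact (Real.continuous_exp.tendsto _).comp hra.neg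
  have hU : Tendsto (fun n => 2 * Real.exp (-(r (B n) * ((A n : ℝ) - B n)))) atTop
      (𝓝 (2 * Real.exp (Real.pi / 3) * Real.exp (-(Real.pi * α / (3 * β))))) := by
    have h3 : Tendsto (fun n => -(r (B n) * ((A n : ℝ) - B n))) atTop
        (𝓝 (Real.pi / 3 + -(Real.pi * α / (3 * β)))) := by
      rw [e1]
      refine (hbn.add hra.neg).congr ?_
      intro n
      ring
    have h4 := ((Real.continuous_exp.tendsto _).comp h3).const_mul 2
    rw [Real.exp_add] at h4
    rw [mul_assoc]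
    exact h4
  have hX : 0 < Real.exp (-(Real.pi * α / (3 * β))) := Real.exp_pos _
  have hY : 0 < 2 * Real.exp (Real.pi / 3) * Real.exp (-(Real.pi * α / (3 * β))) := by positivity
  filter_upwards [hL.eventually_const_le (show (1 - ε) * Real.exp (-(Real.pi * α / (3 * β))) <
      Real.exp (-(Real.pi * α / (3 * β))) by nlinarith),
    hU.eventually_le_const (show 2 * Real.exp (Real.pi / 3) *
      Real.exp (-(Real.pi * α / (3 * β))) < (1 + ε) * (2 * Real.exp (Real.pi / 3) *
      Real.exp (-(Real.pi * α / (3 * β)))) by nlinarith)] with n h5 h6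
  exact ⟨h5.trans (hlo _ _), (hup _ _).trans h6⟩

end M2

theorem cl_main2 (h1 : S_main1) (hs : S_sub) (hd : S_dual) (hg : S_glue) : S_main2 := by
  obtain ⟨r, hr, hbr⟩ := h1 (Real.pi / 6) (by positivity) (by linarith [Real.pi_pos])
  have hpp : pp (Real.pi / 6) = 1 / 2 := by
    unfold pp
    have e1 : Real.pi / 3 - Real.pi / 6 = Real.pi / 6 := by ring
    have e2 : Real.pi / 3 + Real.pi / 6 = Real.pi / 2 := by ring
    rw [e1, e2, Real.sin_pi_div_six, Real.sin_pi_div_two]; norm_num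
  have htan : Real.tan (3 * (Real.pi / 6) / 2) = 1 := by
    have : 3 * (Real.pi / 6) / 2 = Real.pi / 4 := by ring
    rw [this, Real.tan_pi_div_four]
  rw [htan, mul_one] at hbr
  simp only [hpp] at hr
  have hsub := fun b => hs (1 / 2) (by norm_num) (by norm_num) b
  have hpos : ∀ a b, 0 < prob (1 / 2) a b := fun a b => (hsub b).1 a
  have hle : ∀ a b, prob (1 / 2) a b ≤ 1 := by
    intro a b
    rcases a with _ | a
    · exact (hsub b).2.2.le
    · linarith [hd a b, hpos (b + 1) a]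
  have hr0 : ∀ b, 0 ≤ r b := by
    intro b
    refine ge_of_tendsto (hr b) (Eventually.of_forall fun a => ?_)
    have h2 : Real.log (prob (1 / 2) a b) ≤ 0 := Real.log_nonpos (hpos a b).le (hle a b)
    have h3 : (0 : ℝ) ≤ 1 / (a : ℝ) := by positivity
    nlinarith
  have hlo : ∀ a b : ℕ, Real.exp (-(r b * a)) ≤ prob (1 / 2) a b := fun a b =>
    M2.lower (fun a b => prob (1 / 2) a b) r b (fun a => hpos a b) ((hsub b).2.1) (hsub b).2.2
      (hr b) a
  have hup0 : ∀ a b : ℕ, prob (1 / 2) (a + b) b ≤ 2 * Real.exp (-(r b * a)) := fun a b =>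
    M2.upper (fun a b => prob (1 / 2) a b) r b (fun a => hpos a b) (fun a => hle a b)
      (fun a a' => hg a a' b) (hr b) a
  have hup : ∀ a b : ℕ, prob (1 / 2) a b ≤ 2 * Real.exp (-(r b * ((a : ℝ) - b))) := by
    intro a b
    rcases le_total b a with hab | hab
    · obtain ⟨c, rfl⟩ := Nat.exists_eq_add_of_le hab
      have h2 := hup0 c b
      rw [add_comm c b] at h2
      have e : (((b + c : ℕ) : ℝ) - b) = c := by push_cast; ring
      rw [e]; exact h2
    · have h2 : (1 : ℝ) ≤ Real.exp (-(r b * ((a : ℝ) - b))) := by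
        rw [← Real.exp_zero]
        apply Real.exp_le_exp.mpr
        have h3 : (a : ℝ) ≤ b := by exact_mod_cast hab
        nlinarith [hr0 b]
      linarith [hle a b]
  intro L l hL hl ε hε
  have hfl : ∀ c : ℝ, 0 < c → Tendsto (fun n : ℕ => (⌊c * n⌋₊ : ℝ) / n) atTop (𝓝 c) := by
    intro c hc
    exact (tendsto_nat_floor_mul_div_atTop hc.le).comp tendsto_natCast_atTop_atTop
  have hfi : ∀ c : ℝ, 0 < c → Tendsto (fun n : ℕ => ⌊c * n⌋₊) atTop atTop := by
    intro c hc
    exact tendsto_nat_floor_atTop.comp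
      (Tendsto.const_mul_atTop hc tendsto_natCast_atTop_atTop)
  have hinv : Tendsto (fun n : ℕ => (1 : ℝ) / n) atTop (𝓝 0) :=
    tendsto_const_div_atTop_nhds_zero_nat 1
  have P1 := M2.squeeze (fun a b => prob (1 / 2) a b) r hbr hlo hup (fun n => ⌊L * n⌋₊)
    (fun n => ⌊l * n⌋₊) L l hl (hfi l hl) (hfl L hL) (hfl l hl) ε hε
  have P2 := M2.squeeze (fun a b => prob (1 / 2) a b) r hbr hlo hup (fun n => ⌊l * n⌋₊ + 1)
    (fun n => ⌊L * n⌋₊ - 1) l L hL (by
      refine tendsto_atTop.mpr fun m => ?_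
      filter_upwards [(hfi L hL).eventually_ge_atTop (m + 1)] with n hn
      omega) (by
      have h5 := (hfl l hl).add hinv
      rw [add_zero] at h5
      refine h5.congr fun n => ?_
      push_cast
      ring) (by
      have h5 := (hfl L hL).sub hinv
      rw [sub_zero] at h5
      refine h5.congr' ?_
      filter_upwards [(hfi L hL).eventually_ge_atTop 1] with n hn
      rw [Nat.cast_sub hn]
      push_cast
      ring) ε hε
  filter_upwards [P1, P2, (hfi L hL).eventually_ge_atTop 1] with n hn1 hn2 hn3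
  have h6 := hd (⌊L * n⌋₊ - 1) ⌊l * n⌋₊
  rw [Nat.sub_add_cancel hn3] at h6
  have h7 : 1 - prob (1 / 2) ⌊L * n⌋₊ ⌊l * n⌋₊ =
      prob (1 / 2) (⌊l * n⌋₊ + 1) (⌊L * n⌋₊ - 1) := by linarith
  rw [h7]
  exact ⟨hn1.1, hn1.2, hn2.1, hn2.2⟩

end W96CL
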